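import Pool.Agent.Y226.ZV.Hen

/-!
# Families of curves at almost all algebraic parameters
-/

set_option autoImplicit false
set_option linter.unusedSectionVars false

open UpperHalfPlane H294ZP Polynomial

namespace Pool.Agent.Y226.ZV

open Pool.Agent.Y226 Pool.Agent.Y226.ZG Pool.Agent.Y226.ZM Pool.Agent.Y226.ZU Pool.Agent.Y226.ZR

section local_

variable {C : Type} [NormedField C] [IsUltrametricDist C] [CompleteSpace C] [CharZero C]
  [IsAlgClosed C]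
variable {p : ℕ} [hpf : Fact p.Prime]

theorem rat_unit (hp1 : ‖(p : C)‖ < 1) {q : ℚ} (hq : q ≠ 0) (h1 : q.num.natAbs < p)
    (h2 : q.den < p) : ‖(Rat.castHom C) q‖ = 1 := by
  have hnum : ¬ (p : ℤ) ∣ q.num := by
    intro h
    have h3 : p ∣ q.num.natAbs := Int.natCast_dvd.1 h
    have h4 := Nat.le_of_dvd (Int.natAbs_pos.2 (Rat.num_ne_zero.2 hq)) h3
    omega
  have hden : ¬ (p : ℤ) ∣ (q.den : ℤ) := by
    intro h
    have h3 : p ∣ q.den := by exact_mod_cast h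
    have h4 := Nat.le_of_dvd q.den_pos h3
    omega
  have e : (Rat.castHom C) q = ((q.num : ℤ) : C) / ((q.den : ℤ) : C) := by
    rw [Rat.coe_castHom, Rat.cast_def, Int.cast_natCast]
  rw [e, norm_div, int_unit hp1 hnum, int_unit hp1 hden, div_one]

/-- all nonzero coefficients are units -/
def UnitCoeffs (C : Type) [NormedField C] [CharZero C] (f : ℚ[X]) : Prop :=
  ∀ k, f.coeff k ≠ 0 → ‖(Rat.castHom C) (f.coeff k)‖ = 1

theorem UnitCoeffs.le {f : ℚ[X]} (hf : UnitCoeffs C f) (k : ℕ) :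
    ‖(Rat.castHom C) (f.coeff k)‖ ≤ 1 := by
  by_cases h : f.coeff k = 0
  · rw [h, map_zero, norm_zero]; exact zero_le_one
  · exact (hf k h).le

theorem eval_lt {f : ℚ[X]} (hf : UnitCoeffs C f) {x : C} (hx : 1 < ‖x‖) {w : ℕ}
    (hw : f.degree < (w : WithBot ℕ)) : ‖f.eval₂ (Rat.castHom C) x‖ ≤ ‖x‖ ^ w * ‖x‖⁻¹ := by
  have hx0 : 0 < ‖x‖ := one_pos.trans hx
  by_cases hf0 : f = 0
  · rw [hf0, eval₂_zero, norm_zero]
    positivity
  have hd : f.natDegree < w := (natDegree_lt_iff_degree_lt hf0).2 hw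
  obtain ⟨w', rfl⟩ : ∃ w', w = w' + 1 := ⟨w - 1, by omega⟩
  rw [pow_succ, mul_assoc, mul_inv_cancel₀ hx0.ne', mul_one, eval₂_eq_sum_range]
  refine nsum_le _ _ (by positivity) fun k hk => ?_
  rw [norm_mul, norm_pow]
  calc _ ≤ 1 * ‖x‖ ^ w' := mul_le_mul (hf.le k) (pow_le_pow_right₀ hx.le
        (by have := Finset.mem_range.1 hk; omega)) (by positivity) zero_le_one
    _ = ‖x‖ ^ w' := one_mul _

theorem eval_eq {f : ℚ[X]} (hf : UnitCoeffs C f) (hf0 : f ≠ 0) {x : C} (hx : 1 < ‖x‖) :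
    ‖f.eval₂ (Rat.castHom C) x‖ = ‖x‖ ^ f.natDegree := by
  have hx0 : 0 < ‖x‖ := one_pos.trans hx
  have e : f.eval₂ (Rat.castHom C) x = f.eraseLead.eval₂ (Rat.castHom C) x +
      (Rat.castHom C) f.leadingCoeff * x ^ f.natDegree := by
    conv_lhs => rw [← f.eraseLead_add_C_mul_X_pow]
    rw [eval₂_add, eval₂_mul, eval₂_C, eval₂_pow, eval₂_X]
  have h1 : ‖f.eraseLead.eval₂ (Rat.castHom C) x‖ ≤ ‖x‖ ^ f.natDegree * ‖x‖⁻¹ := by
    refine eval_lt (fun k hk => ?_) hx ?_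
    · by_cases hkd : k = f.natDegree
      · rw [hkd, eraseLead_coeff_natDegree] at hk
        exact absurd rfl hk
      · rw [eraseLead_coeff_of_ne _ hkd] at hk ⊢
        exact hf k hk
    · rw [← degree_eq_natDegree hf0]
      exact degree_eraseLead_lt hf0
  have h2 : ‖(Rat.castHom C) f.leadingCoeff * x ^ f.natDegree‖ = ‖x‖ ^ f.natDegree := by
    have h0 : ‖(Rat.castHom C) f.leadingCoeff‖ = 1 := hf f.natDegree (leadingCoeff_ne_zero.2 hf0)
    rw [norm_mul, h0, one_mul, norm_pow]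
  have h3 : ‖f.eraseLead.eval₂ (Rat.castHom C) x‖ <
      ‖(Rat.castHom C) f.leadingCoeff * x ^ f.natDegree‖ := by
    rw [h2]
    refine h1.trans_lt ?_
    exact mul_lt_of_lt_one_right (pow_pos hx0 _) (inv_lt_one_of_one_lt₀ hx)
  rw [e, IsUltrametricDist.norm_add_eq_max_of_norm_ne_norm h3.ne, max_eq_right h3.le, h2]

theorem eval_mem {f : ℚ[X]} {x : C} (hx : x ∈ QF C) : f.eval₂ (Rat.castHom C) x ∈ QF C := by
  rw [eval₂_eq_sum_range]
  exact sum_mem fun k _ => mul_mem (rat_mem _) (pow_mem hx _)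

end local_

/-- the polynomial with the coefficients `a` -/
noncomputable def polA (a : ℕ → ℤ) (s : ℕ) : ℚ[X] :=
  ∑ k ∈ Finset.range (s + 2), Polynomial.C ((a k : ℤ) : ℚ) * X ^ k

theorem polA_aeval (a : ℕ → ℤ) (s : ℕ) {K : Type} [Field K] [CharZero K] (x : K) :
    (polA a s).eval₂ (Rat.castHom K) x = ∑ k ∈ Finset.range (s + 2), (a k : K) * x ^ k := by
  unfold polA
  rw [eval₂_finset_sum]
  refine Finset.sum_congr rfl fun k _ => ?_
  rw [eval₂_mul, eval₂_C, eval₂_pow, eval₂_X]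
  simp

theorem polA_coeff (a : ℕ → ℤ) (s : ℕ) : (polA a s).coeff (s + 1) = (a (s + 1) : ℚ) := by
  unfold polA
  rw [finset_sum_coeff, Finset.sum_eq_single (s + 1)]
  · rw [coeff_C_mul, coeff_X_pow_self, mul_one]
  · intro k _ hk
    rw [coeff_C_mul, coeff_X_pow, if_neg (Ne.symm hk), mul_zero]
  · intro h
    exact absurd (Finset.mem_range.2 (by omega)) h

theorem polA_natDegree (a : ℕ → ℤ) (s : ℕ) : (polA a s).natDegree ≤ s + 1 := by
  unfold polA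
  refine natDegree_sum_le_of_forall_le _ _ fun k hk => ?_
  exact (natDegree_C_mul_X_pow_le _ _).trans (by have := Finset.mem_range.1 hk; omega)

/-- a root of a multiple of the same degree is a conjugate -/
theorem root_minpoly {t : ℂ} {s : ℕ} (ht : (minpoly ℚ t).natDegree = s + 1) {P : ℚ[X]}
    (hP0 : P ≠ 0) (hPd : P.natDegree ≤ s + 1) (hPt : P.eval₂ (Rat.castHom ℂ) t = 0)
    {K : Type} [Field K] [CharZero K] {x : K} (hPx : P.eval₂ (Rat.castHom K) x = 0) :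
    (minpoly ℚ t).eval₂ (Rat.castHom K) x = 0 := by
  have hPt' : aeval t P = 0 := by
    rw [aeval_def, RingHom.ext_rat (algebraMap ℚ ℂ) (Rat.castHom ℂ)]
    exact hPt
  obtain ⟨g, hg⟩ := minpoly.dvd ℚ t hPt'
  have hg0 : g ≠ 0 := by
    rintro rfl
    rw [mul_zero] at hg
    exact hP0 hg
  have hm0 : minpoly ℚ t ≠ 0 := by
    intro h
    rw [h, natDegree_zero] at ht
    omega
  have hgd : g.natDegree = 0 := by
    have := natDegree_mul hm0 hg0
    rw [← hg, ht] at this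
    omega
  have hgC := eq_C_of_natDegree_eq_zero hgd
  have hc0 : g.coeff 0 ≠ 0 := by
    intro h
    rw [h, Polynomial.C_0] at hgC
    exact hg0 hgC
  rw [hg, eval₂_mul, hgC, eval₂_C] at hPx
  rcases mul_eq_zero.1 hPx with h | h
  · exact h
  · exact absurd ((map_eq_zero (Rat.castHom K)).1 h) hc0

theorem isAlg_of_deg {t : ℂ} {s : ℕ} (ht : (minpoly ℚ t).natDegree = s + 1) : IsAlgebraic ℚ t := by
  by_contra h
  rw [minpoly.eq_zero (fun hi => h hi.isAlgebraic), natDegree_zero] at ht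
  omega

section local2

variable {C : Type} [NormedField C] [IsUltrametricDist C] [CompleteSpace C] [CharZero C]
  [IsAlgClosed C]
variable {p : ℕ} [hpf : Fact p.Prime]

/-- the conjugate of `t` -/
theorem exists_conj (hp1 : ‖(p : C)‖ < 1) {s : ℕ} (a : ℕ → ℤ)
    (h1 : (p : ℤ) ∣ a (s + 1)) (h2 : ¬ (p : ℤ) ∣ a s) (h3 : a (s + 1) ≠ 0) {t : ℂ}
    (ht : (minpoly ℚ t).natDegree = s + 1)
    (hr : ∑ k ∈ Finset.range (s + 2), (a k : ℂ) * t ^ k = 0) :
    ∃ (t' : QA) (φ : QA →+* C), rA t' = t ∧ φ t' ∈ QF C ∧ ‖φ t'‖ = ‖(a (s + 1) : C)‖⁻¹ := by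
  obtain ⟨x, hxF, hx, hxn⟩ := exists_root hp1 a h1 h2 h3
  have halg := isAlg_of_deg ht
  obtain ⟨t', ht'⟩ : ∃ t' : QA, rA t' = t := ⟨⟨t, mem_QA.2 halg⟩, rfl⟩
  have hP0 : polA a s ≠ 0 := by
    intro h
    have h4 := polA_coeff a s
    rw [h, coeff_zero] at h4
    exact h3 (by exact_mod_cast h4.symm)
  have hmx := root_minpoly ht hP0 (polA_natDegree a s) (by rw [polA_aeval]; exact hr)
    (K := C) (x := x) (by rw [polA_aeval]; exact hx)
  have hmin : minpoly ℚ t' = minpoly ℚ t := by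
    rw [← ht']
    exact (minpoly.algebraMap_eq (B := QA) (B' := ℂ) (algebraMap QA ℂ).injective t').symm
  obtain ⟨φ, hφ⟩ := exists_emb t' x (by
    rw [hmin, aeval_def, RingHom.ext_rat (algebraMap ℚ C) (Rat.castHom C)]
    exact hmx)
  refine ⟨t', φ, ht', ?_, ?_⟩
  · rw [hφ]; exact hxF
  · rw [hφ]; exact hxn

end local2


/-- the members of the family -/
def fam {n : ℕ} (I : Ideal (MvPolynomial (Fin n) QA)) (lam mu : Fin n → ℚ[X]) (t : ℂ) :
    Set (Fin n → ℂ) := im I (fun i => aeval t (lam i)) (fun i => aeval t (mu i))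

/-- Zilber-Pink with the bound `G` -/
def ZPG {n : ℕ} (Γ : Finset ℂ) (G : ℕ) (S : Set (Fin n → ℂ)) : Prop :=
  (∀ x ∈ S, ∀ (r : ℕ) (Z : SV (Γ : Set ℂ) n r), r + 2 ≤ n → x ∈ Z.locus →
    ∃ j l : Fin n, j ≠ l ∧ ∃ N : ℕ, 0 < N ∧ N ≤ G ∧ Isog N (x j) (x l)) ∧
  {x | x ∈ S ∧ ∃ (r : ℕ) (Z : SV (Γ : Set ℂ) n r), r + 2 ≤ n ∧ x ∈ Z.locus}.Finite ∧
  {x | x ∈ S ∧ ∃ (r : ℕ) (Z : SV (Γ : Set ℂ) n r), r + 2 ≤ n ∧ x ∈ Z.locus}.ncard ≤ G ∧
  ∀ (r : ℕ) (Z : SV (Γ : Set ℂ) n r), r < n → ¬ S ⊆ Z.locus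

theorem ZPG.mono {n : ℕ} {Γ : Finset ℂ} {G G' : ℕ} {S : Set (Fin n → ℂ)} (h : ZPG Γ G S)
    (hG : G ≤ G') : ZPG Γ G' S := by
  obtain ⟨h1, h2, h3, h4⟩ := h
  refine ⟨fun x hx r Z hr hZ => ?_, h2, h3.trans hG, h4⟩
  obtain ⟨j, l, hjl, N, hN0, hN, hI⟩ := h1 x hx r Z hr hZ
  exact ⟨j, l, hjl, N, hN0, hN.trans hG, hI⟩

theorem fam_prime {n : ℕ} (I : Ideal (MvPolynomial (Fin n) QA)) (hIp : I.IsPrime)
    (hconst : ∀ (i : Fin n) (c : QA), MvPolynomial.X i - MvPolynomial.C c ∉ I)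
    (hgen : ∀ i j : Fin n, i ≠ j → ∃ (a b : ℕ) (g : ℕ → ℕ → QA),
      g 0 0 ≠ 0 ∧ g a 0 ≠ 0 ∧ g 0 b ≠ 0 ∧ g a b ≠ 0 ∧
      ∑ u ∈ Finset.range (a + 1), ∑ v ∈ Finset.range (b + 1),
        MvPolynomial.C (g u v) * MvPolynomial.X i ^ u * MvPolynomial.X j ^ v ∈ I)
    (lam mu : Fin n → ℚ[X]) (hlam : ∀ i, 0 < (lam i).natDegree)
    (hmu : ∀ i, (mu i).degree < (lam i).degree)
    (Γ : Finset ℂ) (hΓ : ∀ γ ∈ Γ, IsAlgebraic ℚ γ) :
    ∃ D : ℕ, ∀ p : ℕ, p.Prime → D < p → ∃ G : ℕ, ∀ (s : ℕ) (a : ℕ → ℤ), (p : ℤ) ∣ a (s + 1) →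
      ¬ (p : ℤ) ∣ a s → a (s + 1) ≠ 0 → ∀ t : ℂ, (minpoly ℚ t).natDegree = s + 1 →
      ∑ k ∈ Finset.range (s + 2), (a k : ℂ) * t ^ k = 0 → ZPG Γ G (fam I lam mu t) := by
  classical
  obtain ⟨D, hD⟩ := main_loc I hIp hconst hgen (∑ i, (lam i).natDegree) Γ hΓ
  set cb : ℚ[X] → ℕ := fun f =>
    ∑ k ∈ Finset.range (f.natDegree + 1), ((f.coeff k).num.natAbs + (f.coeff k).den) with hcb
  refine ⟨D + ∑ i, (cb (lam i) + cb (mu i)), ?_⟩
  intro p hp hDp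
  haveI hpf : Fact p.Prime := ⟨hp⟩
  obtain ⟨C, _, _, _, _, _, -, hpn⟩ := exists_padic p
  have hpR : (1 : ℝ) < p := by exact_mod_cast hp.one_lt
  have hp0 : 0 < ‖(p : C)‖ := by rw [hpn]; exact inv_pos.2 (by linarith)
  have hp1 : ‖(p : C)‖ < 1 := by rw [hpn]; exact inv_lt_one_of_one_lt₀ hpR
  obtain ⟨G, hG⟩ := hD p (by omega) C hp0 hp1 1 one_pos
  refine ⟨G, ?_⟩
  intro s a h1 h2 h3 t ht hr
  obtain ⟨t', φ, ht't, htF, htn⟩ := exists_conj (C := C) hp1 a h1 h2 h3 ht hr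
  -- the exponent
  obtain ⟨e, m', hm', hme⟩ := Nat.exists_eq_pow_mul_and_not_dvd (Int.natAbs_ne_zero.2 h3) p
    hp.one_lt.ne'
  have he : 0 < e := by
    rcases Nat.eq_zero_or_pos e with h | h
    · exfalso
      subst h
      rw [pow_zero, one_mul] at hme
      exact hm' (hme ▸ Int.natCast_dvd.1 h1)
    · exact h
  have hmn : ‖(a (s + 1) : C)‖ = ‖(p : C)‖ ^ e := by
    have h4 : ‖(a (s + 1) : C)‖ = ‖(((a (s + 1)).natAbs : ℕ) : C)‖ := by
      rcases Int.natAbs_eq (a (s + 1)) with h | h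
      · conv_lhs => rw [h]
        rw [Int.cast_natCast]
      · conv_lhs => rw [h]
        rw [Int.cast_neg, Int.cast_natCast, norm_neg]
    have h5 : ‖((m' : ℤ) : C)‖ = 1 := int_unit hp1 (by exact_mod_cast hm')
    rw [Int.cast_natCast] at h5
    rw [h4, hme]
    push_cast
    rw [norm_mul, norm_pow, h5, mul_one]
  have htn' : ‖φ t'‖ = ‖(p : C)‖⁻¹ ^ e := by rw [htn, hmn, inv_pow]
  have ht1 : 1 < ‖φ t'‖ := by
    rw [htn']
    exact one_lt_pow₀ ((one_lt_inv₀ hp0).2 hp1) he.ne'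
  have htinv : ‖φ t'‖⁻¹ ≤ ‖(p : C)‖ := by
    rw [htn', ← inv_pow, inv_inv]
    exact pow_le_of_le_one hp0.le hp1.le he.ne'
  -- the coefficients
  have hunit : ∀ f : ℚ[X], cb f < p → UnitCoeffs C f := by
    intro f hf k hk
    have hk' : k ∈ Finset.range (f.natDegree + 1) :=
      Finset.mem_range.2 (Nat.lt_succ_of_le (le_natDegree_of_ne_zero hk))
    have h4 : (f.coeff k).num.natAbs + (f.coeff k).den ≤ cb f :=
      Finset.single_le_sum (f := fun k => (f.coeff k).num.natAbs + (f.coeff k).den)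
        (fun _ _ => Nat.zero_le _) hk'
    have h5 := (f.coeff k).den_pos
    exact rat_unit hp1 hk (by omega) (by omega)
  have hcbs : ∀ i, cb (lam i) + cb (mu i) ≤ ∑ i, (cb (lam i) + cb (mu i)) := fun i =>
    Finset.single_le_sum (f := fun i => cb (lam i) + cb (mu i)) (fun _ _ => Nat.zero_le _)
      (Finset.mem_univ i)
  have hul : ∀ i, UnitCoeffs C (lam i) := fun i => hunit _ (by have := hcbs i; omega)
  have hum : ∀ i, UnitCoeffs C (mu i) := fun i => hunit _ (by have := hcbs i; omega)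
  have hφf : ∀ f : ℚ[X], φ (aeval t' f) = f.eval₂ (Rat.castHom C) (φ t') := by
    intro f
    rw [aeval_def, hom_eval₂]
    congr 1
    exact RingHom.ext_rat _ _
  have hrf : ∀ f : ℚ[X], rA (aeval t' f) = aeval t f := by
    intro f
    rw [aeval_def, hom_eval₂, aeval_def, ht't]
    congr 1
  have hl0 : ∀ i, lam i ≠ 0 := by
    intro i h0
    have := hlam i
    rw [h0, natDegree_zero] at this
    omega
  have hL : ∀ i, ‖φ (aeval t' (lam i))‖ = ‖φ t'‖ ^ (lam i).natDegree := fun i => by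
    rw [hφf]
    exact eval_eq (hul i) (hl0 i) ht1
  have hfam : fam I lam mu t = im I (fun i => rA (aeval t' (lam i))) (fun i => rA (aeval t' (mu i))) := by
    unfold fam
    simp only [hrf]
  rw [hfam]
  refine hG φ (QF C) (fun i => aeval t' (lam i)) (fun i => aeval t' (mu i)) e
    (fun i => (lam i).natDegree) he (fun i => ⟨hlam i, ?_⟩) (unr_QF hp0 hp1) (fun i => ?_)
    (fun i => ?_) (fun i => ?_) (fun i => ?_)
  · exact Finset.single_le_sum (f := fun i => (lam i).natDegree) (fun _ _ => Nat.zero_le _)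
      (Finset.mem_univ i)
  · rw [hφf]
    exact eval_mem htF
  · rw [hφf]
    exact eval_mem htF
  · rw [hL, htn', ← pow_mul, mul_comm e]
  · rw [hL, hφf]
    have h4 : (mu i).degree < ((lam i).natDegree : WithBot ℕ) := by
      rw [← degree_eq_natDegree (hl0 i)]
      exact hmu i
    refine (eval_lt (hum i) ht1 h4).trans ?_
    rw [mul_comm]
    exact mul_le_mul_of_nonneg_right htinv (by positivity)

/-- the density theorem for families -/
theorem fam_main {n : ℕ} (I : Ideal (MvPolynomial (Fin n) QA)) (hIp : I.IsPrime)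
    (hconst : ∀ (i : Fin n) (c : QA), MvPolynomial.X i - MvPolynomial.C c ∉ I)
    (hgen : ∀ i j : Fin n, i ≠ j → ∃ (a b : ℕ) (g : ℕ → ℕ → QA),
      g 0 0 ≠ 0 ∧ g a 0 ≠ 0 ∧ g 0 b ≠ 0 ∧ g a b ≠ 0 ∧
      ∑ u ∈ Finset.range (a + 1), ∑ v ∈ Finset.range (b + 1),
        MvPolynomial.C (g u v) * MvPolynomial.X i ^ u * MvPolynomial.X j ^ v ∈ I)
    (lam mu : Fin n → ℚ[X]) (hlam : ∀ i, 0 < (lam i).natDegree)
    (hmu : ∀ i, (mu i).degree < (lam i).degree)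
    (Γ : Finset ℂ) (hΓ : ∀ γ ∈ Γ, IsAlgebraic ℚ γ) (δ : ℕ) (hδ : 0 < δ) (ε : ℝ) (hε : 0 < ε) :
    ∃ G H₀ : ℕ, ∀ H : ℕ, H₀ ≤ H → (1 - ε) * (2 * H + 1) ^ (δ + 1) ≤
      ({a : Fin (δ + 1) → ℤ | (∀ k, |a k| ≤ H) ∧ ∀ t : ℂ, (minpoly ℚ t).natDegree = δ →
        ∑ k : Fin (δ + 1), (a k : ℂ) * t ^ (k : ℕ) = 0 → ZPG Γ G (fam I lam mu t)}.ncard : ℝ) := by
  classical
  obtain ⟨D, hD⟩ := fam_prime I hIp hconst hgen lam mu hlam hmu Γ hΓ
  obtain ⟨s, rfl⟩ : ∃ s, δ = s + 1 := ⟨δ - 1, by omega⟩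
  obtain ⟨T', H₀, hH₀⟩ := density (MvPolynomial.X (Fin.last s) : MvPolynomial (Fin (s + 1)) ℤ)
    (MvPolynomial.X_ne_zero _) D ε hε
  have hpr : ∀ p : ℕ, ∃ G : ℕ, p.Prime → D < p → ∀ (s : ℕ) (a : ℕ → ℤ), (p : ℤ) ∣ a (s + 1) →
      ¬ (p : ℤ) ∣ a s → a (s + 1) ≠ 0 → ∀ t : ℂ, (minpoly ℚ t).natDegree = s + 1 →
      ∑ k ∈ Finset.range (s + 2), (a k : ℂ) * t ^ k = 0 → ZPG Γ G (fam I lam mu t) := by
    intro p
    by_cases h : p.Prime ∧ D < p
    · obtain ⟨G, hG⟩ := hD p h.1 h.2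
      exact ⟨G, fun _ _ => hG⟩
    · exact ⟨0, fun h1 h2 => absurd ⟨h1, h2⟩ h⟩
  choose Gp hGp using hpr
  refine ⟨∑ p ∈ Finset.range (T' + 1), Gp p, H₀, fun H hH => ?_⟩
  have h1 := hH₀ H hH
  rw [Fintype.card_fin, add_comm 1] at h1
  refine h1.trans (Nat.cast_le.2 ?_)
  have hfin : {a : Fin (s + 1 + 1) → ℤ | ∀ k, |a k| ≤ (H : ℤ)}.Finite := by
    refine (Finset.finite_toSet (Fintype.piFinset fun _ : Fin (s + 1 + 1) =>
      Finset.Icc (-(H : ℤ)) H)).subset ?_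
    intro a ha
    rw [Finset.mem_coe, Fintype.mem_piFinset]
    exact fun k => Finset.mem_Icc.2 (abs_le.1 (ha k))
  refine Set.ncard_le_ncard_of_injOn
    (fun q : ℤ × (Fin (s + 1) → ℤ) => (Fin.snoc q.2 q.1 : Fin (s + 1 + 1) → ℤ)) ?_ ?_
    (hfin.subset fun a ha => ha.1)
  · rintro ⟨m, b⟩ ⟨h2, h3, h4, p, hp, hpD, hpT', hpq, hpR⟩
    rw [MvPolynomial.eval_X] at hpR
    simp only at h2 h3 h4 hpq hpR
    refine ⟨fun k => ?_, fun t ht hr => ?_⟩
    · refine Fin.lastCases ?_ (fun k => ?_) k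
      · rw [Fin.snoc_last]; exact h2
      · rw [Fin.snoc_castSucc]; exact h3 k
    · set a : ℕ → ℤ := fun k => if h : k < s + 1 + 1 then
        (Fin.snoc b m : Fin (s + 1 + 1) → ℤ) ⟨k, h⟩ else 0 with ha
      have ha1 : a (s + 1) = m := by
        rw [ha]
        simp only
        rw [dif_pos (by omega)]
        exact Fin.snoc_last (α := fun _ => ℤ) m b
      have ha2 : a s = b (Fin.last s) := by
        rw [ha]
        simp only
        rw [dif_pos (by omega)]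
        exact Fin.snoc_castSucc (α := fun _ => ℤ) m b (Fin.last s)
      have hr' : ∑ k ∈ Finset.range (s + 2), (a k : ℂ) * t ^ k = 0 := by
        rw [Finset.sum_range, ← hr]
        refine Finset.sum_congr rfl fun k _ => ?_
        have : a (k : ℕ) = (Fin.snoc b m : Fin (s + 1 + 1) → ℤ) k := by
          rw [ha]
          simp only
          rw [dif_pos k.2]
        rw [this]
      refine (hGp p hp hpD s a (by rw [ha1]; exact hpq) (by rw [ha2]; exact hpR)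
        (by rw [ha1]; exact h4) t ht hr').mono ?_
      exact Finset.single_le_sum (f := Gp) (fun _ _ => Nat.zero_le _)
        (Finset.mem_range.2 (by omega))
  · rintro ⟨m, b⟩ _ ⟨m', b'⟩ _ h
    have h2 := (Fin.snoc_inj (α := fun _ => ℤ)).1 h
    exact Prod.ext h2.2 h2.1

end Pool.Agent.Y226.ZV
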