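import Pool.Agent.Y226.ZV.Loc
import Pool.Agent.Y226.ZR.Rand

/-!
# The large conjugate of an algebraic number
-/

set_option autoImplicit false
set_option linter.unusedSectionVars false

open UpperHalfPlane H294ZP Polynomial

namespace Pool.Agent.Y226.ZV

open Pool.Agent.Y226 Pool.Agent.Y226.ZG Pool.Agent.Y226.ZM Pool.Agent.Y226.ZU Pool.Agent.Y226.ZR

variable {C : Type} [NormedField C] [IsUltrametricDist C] [CompleteSpace C] [CharZero C]
  [IsAlgClosed C]
variable {p : ℕ} [hpf : Fact p.Prime]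

/-- the closure of the rational numbers -/
def QF (C : Type) [NormedField C] [CharZero C] : Subfield C :=
  (Rat.castHom C).fieldRange.topologicalClosure

theorem unr_QF (hp0 : 0 < ‖(p : C)‖) (hp1 : ‖(p : C)‖ < 1) : Unr p (QF C) 1 :=
  Un_closure hp0 hp1 (unr_rat hp0 hp1)

theorem rat_mem (q : ℚ) : (q : C) ∈ QF C :=
  Subfield.le_topologicalClosure _ ⟨q, rfl⟩

theorem pow_diff {y z : C} {r : ℝ} (hr1 : r ≤ 1) (hy : ‖y‖ ≤ r) (hz : ‖z‖ ≤ r)
    (m : ℕ) : ‖y ^ (m + 2) - z ^ (m + 2)‖ ≤ r * ‖y - z‖ := by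
  have hr0 : 0 ≤ r := (norm_nonneg _).trans hy
  induction m with
  | zero =>
    have e : y ^ (0 + 2) - z ^ (0 + 2) = (y + z) * (y - z) := by ring
    rw [e, norm_mul]
    exact mul_le_mul_of_nonneg_right (nadd_le hy hz) (norm_nonneg _)
  | succ m ih =>
    have e : y ^ (m + 1 + 2) - z ^ (m + 1 + 2) =
        y * (y ^ (m + 2) - z ^ (m + 2)) + (z ^ (m + 2)) * (y - z) := by ring
    rw [e]
    refine nadd_le ?_ ?_
    · rw [norm_mul]
      calc ‖y‖ * ‖y ^ (m + 2) - z ^ (m + 2)‖ ≤ 1 * (r * ‖y - z‖) :=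
            mul_le_mul (hy.trans hr1) ih (norm_nonneg _) zero_le_one
        _ = r * ‖y - z‖ := one_mul _
    · rw [norm_mul, norm_pow]
      refine mul_le_mul_of_nonneg_right ?_ (norm_nonneg _)
      calc ‖z‖ ^ (m + 2) ≤ ‖z‖ ^ 1 :=
            pow_le_pow_of_le_one (norm_nonneg _) (hz.trans hr1) (by omega)
        _ ≤ r := by rw [pow_one]; exact hz

theorem exists_root (hp1 : ‖(p : C)‖ < 1) {s : ℕ} (a : ℕ → ℤ)
    (h1 : (p : ℤ) ∣ a (s + 1)) (h2 : ¬ (p : ℤ) ∣ a s) (h3 : a (s + 1) ≠ 0) :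
    ∃ x : C, x ∈ QF C ∧ ∑ k ∈ Finset.range (s + 2), (a k : C) * x ^ k = 0 ∧
      ‖x‖ = ‖(a (s + 1) : C)‖⁻¹ := by
  set r := ‖(p : C)‖ with hr
  have hr0 : 0 ≤ r := norm_nonneg _
  have has : ‖(a s : C)‖ = 1 := int_unit hp1 h2
  have has0 : (a s : C) ≠ 0 := norm_pos_iff.1 (by rw [has]; exact one_pos)
  have had : ‖(a (s + 1) : C)‖ ≤ r := norm_int_of_dvd h1
  set R : C → C := fun y => ∑ k ∈ Finset.range s, (a k : C) * y ^ (s - 1 - k + 2) with hR
  have hRd : ∀ y z : C, ‖y‖ ≤ r → ‖z‖ ≤ r → ‖R y - R z‖ ≤ r * ‖y - z‖ := by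
    intro y z hy hz
    rw [hR]
    simp only
    rw [← Finset.sum_sub_distrib]
    refine nsum_le _ _ (mul_nonneg hr0 (norm_nonneg _)) fun k _ => ?_
    rw [← mul_sub, norm_mul]
    calc ‖(a k : C)‖ * ‖y ^ (s - 1 - k + 2) - z ^ (s - 1 - k + 2)‖ ≤ 1 * (r * ‖y - z‖) :=
          mul_le_mul (nint _) (pow_diff hp1.le hy hz _) (norm_nonneg _) zero_le_one
      _ = r * ‖y - z‖ := one_mul _
  have hR0 : R 0 = 0 := by
    rw [hR]
    simp only
    exact Finset.sum_eq_zero fun k _ => by rw [zero_pow (by omega), mul_zero]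
  have hRn : ∀ y : C, ‖y‖ ≤ r → ‖R y‖ ≤ r * ‖y‖ := by
    intro y hy
    have := hRd y 0 hy (by rw [norm_zero]; exact hr0)
    rwa [hR0, sub_zero, sub_zero] at this
  set Q : C → C := fun y => (a (s + 1) : C) + (a s : C) * y + R y with hQ
  set Φ : C → C := fun y => -((a (s + 1) : C) + R y) / (a s : C) with hΦ
  set u : ℕ → C := fun m => Φ^[m] 0 with hu
  have hus : ∀ m, u (m + 1) = Φ (u m) := fun m => by
    rw [hu]
    exact Function.iterate_succ_apply' Φ m 0
  have hΦn : ∀ y : C, ‖y‖ ≤ r → ‖Φ y‖ ≤ r := by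
    intro y hy
    rw [hΦ]
    simp only
    rw [norm_div, has, div_one, norm_neg]
    refine nadd_le had ((hRn y hy).trans ?_)
    exact mul_le_of_le_one_right hr0 (hy.trans hp1.le)
  have hun : ∀ m, ‖u m‖ ≤ r := by
    intro m
    induction m with
    | zero => rw [hu]; simpa using hr0
    | succ m ih => rw [hus]; exact hΦn _ ih
  have huF : ∀ m, u m ∈ (Rat.castHom C).fieldRange := by
    intro m
    induction m with
    | zero => rw [hu]; exact zero_mem _
    | succ m ih =>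
      rw [hus, hΦ]
      simp only
      have hz : ∀ z : ℤ, (z : C) ∈ (Rat.castHom C).fieldRange := fun z => ⟨(z : ℚ), by simp⟩
      refine div_mem (neg_mem (add_mem (hz _) (sum_mem fun k _ => ?_))) (hz _)
      exact mul_mem (hz _) (pow_mem ih _)
  have hud : ∀ m, ‖u (m + 1) - u m‖ ≤ r ^ (m + 1) := by
    intro m
    induction m with
    | zero =>
      have h0 : u 0 = 0 := rfl
      rw [h0, sub_zero, zero_add, pow_one]
      exact hun 1
    | succ m ih =>
      rw [hus (m + 1)]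
      conv_lhs => rw [hus m]
      have e : Φ (u (m + 1)) - Φ (u m) = -(R (u (m + 1)) - R (u m)) / (a s : C) := by
        rw [hΦ]
        simp only
        field_simp
        ring
      rw [hus m] at e ih
      rw [e, norm_div, has, div_one, norm_neg, pow_succ]
      have h5 := hRd (Φ (u m)) (u m) (by rw [← hus]; exact hun _) (hun m)
      calc _ ≤ r * ‖Φ (u m) - u m‖ := h5
        _ ≤ r * r ^ (m + 1) := mul_le_mul_of_nonneg_left ih hr0
        _ = r ^ (m + 1) * r := mul_comm _ _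
  have hcau : CauchySeq u := by
    refine cauchySeq_of_le_geometric r r hp1 fun m => ?_
    rw [dist_eq_norm, ← norm_neg, neg_sub]
    refine (hud m).trans (le_of_eq ?_)
    rw [pow_succ, mul_comm]
  obtain ⟨y, hy⟩ := cauchySeq_tendsto_of_complete hcau
  have hyF : y ∈ QF C := by
    refine mem_closure_of_tendsto hy (Filter.Eventually.of_forall fun m => ?_)
    exact huF m
  have hyn : ‖y‖ ≤ r := le_of_tendsto' hy.norm hun
  have hQu : ∀ m, Q (u m) = (a s : C) * (u m - u (m + 1)) := by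
    intro m
    rw [hus, hQ, hΦ]
    simp only
    field_simp
    ring
  have hRc : Continuous R := by
    rw [hR]
    exact continuous_finset_sum _ fun k _ => continuous_const.mul (continuous_id.pow _)
  have hQc : Continuous Q := (continuous_const.add (continuous_const.mul continuous_id)).add hRc
  have hQy : Q y = 0 := by
    have e1 : Filter.Tendsto (fun m => Q (u m)) Filter.atTop (nhds (Q y)) :=
      (hQc.tendsto y).comp hy
    have e2 : Filter.Tendsto (fun m => Q (u m)) Filter.atTop (nhds ((a s : C) * (y - y))) := by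
      simp_rw [hQu]
      exact (hy.sub (hy.comp (Filter.tendsto_add_atTop_nat 1))).const_mul _
    rw [sub_self, mul_zero] at e2
    exact tendsto_nhds_unique e1 e2
  have hyQ : (a (s + 1) : C) + (a s : C) * y + R y = 0 := hQy
  have hyn2 : ‖y‖ = ‖(a (s + 1) : C)‖ := by
    have e1 : (a (s + 1) : C) = -((a s : C) * y + R y) := by linear_combination hyQ
    have e2 : ‖(a s : C) * y‖ = ‖y‖ := by rw [norm_mul, has, one_mul]
    by_cases hy0 : y = 0
    · rw [hy0, hR0, mul_zero, add_zero, neg_zero] at e1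
      rw [hy0, e1]
    have e3 : ‖R y‖ < ‖(a s : C) * y‖ := by
      rw [e2]
      refine (hRn y hyn).trans_lt ?_
      exact mul_lt_of_lt_one_left (norm_pos_iff.2 hy0) hp1
    rw [e1, norm_neg, IsUltrametricDist.norm_add_eq_max_of_norm_ne_norm e3.ne', max_eq_left e3.le,
      e2]
  have ha0 : (a (s + 1) : C) ≠ 0 := by exact_mod_cast h3
  have hy0 : y ≠ 0 := by
    rw [← norm_pos_iff, hyn2]
    exact norm_pos_iff.2 ha0
  refine ⟨y⁻¹, inv_mem hyF, ?_, by rw [norm_inv, hyn2]⟩
  have hys : y ^ (s + 1) ≠ 0 := pow_ne_zero _ hy0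
  apply mul_left_cancel₀ hys
  rw [mul_zero, Finset.sum_range_succ, Finset.sum_range_succ, mul_add, mul_add, Finset.mul_sum]
  have e1 : ∀ k ∈ Finset.range s, y ^ (s + 1) * ((a k : C) * y⁻¹ ^ k) =
      (a k : C) * y ^ (s - 1 - k + 2) := by
    intro k hk
    have hk' := Finset.mem_range.1 hk
    have e2 : y ^ (s + 1) = y ^ (s - 1 - k + 2) * y ^ k := by
      rw [← pow_add]
      congr 1
      omega
    rw [e2, inv_pow]
    field_simp
  rw [Finset.sum_congr rfl e1]
  have e3 : y ^ (s + 1) * ((a s : C) * y⁻¹ ^ s) = (a s : C) * y := by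
    rw [pow_succ, inv_pow]
    field_simp
  have e4 : y ^ (s + 1) * ((a (s + 1) : C) * y⁻¹ ^ (s + 1)) = (a (s + 1) : C) := by
    rw [inv_pow]
    field_simp
  rw [e3, e4]
  have e5 : R y = ∑ k ∈ Finset.range s, (a k : C) * y ^ (s - 1 - k + 2) := rfl
  rw [← e5]
  linear_combination hyQ

/-- an embedding of the algebraic numbers with a given value -/
theorem exists_emb (t : QA) (x : C) (h : aeval x (minpoly ℚ t) = 0) :
    ∃ φ : QA →+* C, φ t = x := by
  obtain ⟨φ, hφ⟩ := IntermediateField.exists_algHom_of_splits_of_aeval (F := ℚ) (E := QA) (K := C)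
    (fun s => ⟨Algebra.IsIntegral.isIntegral s, IsAlgClosed.splits _⟩) h
  exact ⟨φ.toRingHom, hφ⟩

end Pool.Agent.Y226.ZV
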