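import Pool.Agent.Y226.ZU.Main
import Pool.Agent.Y226.ZR.F

/-!
# Uniform finiteness for affine images of a curve in `Y(1)^n`, local form
-/

set_option autoImplicit false
set_option linter.unusedSectionVars false

open UpperHalfPlane H294ZP Polynomial

namespace Pool.Agent.Y226.ZV

open Pool.Agent.Y226 Pool.Agent.Y226.ZG Pool.Agent.Y226.ZM Pool.Agent.Y226.ZU

theorem main_loc {n : ℕ} (I : Ideal (MvPolynomial (Fin n) QA)) (hIp : I.IsPrime)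
    (hconst : ∀ (i : Fin n) (c : QA), MvPolynomial.X i - MvPolynomial.C c ∉ I)
    (hgen : ∀ i j : Fin n, i ≠ j → ∃ (a b : ℕ) (g : ℕ → ℕ → QA),
      g 0 0 ≠ 0 ∧ g a 0 ≠ 0 ∧ g 0 b ≠ 0 ∧ g a b ≠ 0 ∧
      ∑ u ∈ Finset.range (a + 1), ∑ v ∈ Finset.range (b + 1),
        MvPolynomial.C (g u v) * MvPolynomial.X i ^ u * MvPolynomial.X j ^ v ∈ I) (W : ℕ)
    (Γ : Finset ℂ) (hΓ : ∀ γ ∈ Γ, IsAlgebraic ℚ γ) :
    ∃ D : ℕ, ∀ (p : ℕ) [Fact p.Prime], D < p → ∀ (C : Type) [NormedField C]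
      [IsUltrametricDist C] [CompleteSpace C] [CharZero C] [IsAlgClosed C],
      0 < ‖(p : C)‖ → ‖(p : C)‖ < 1 → ∀ f : ℕ, 0 < f →
      ∃ G : ℕ, ∀ (φ' : QA →+* C) (F : Subfield C) (lam mu : Fin n → QA) (e : ℕ) (w : Fin n → ℕ),
      0 < e → (∀ i, 0 < w i ∧ w i ≤ W) → Unr p F f → (∀ i, φ' (lam i) ∈ F) →
      (∀ i, φ' (mu i) ∈ F) → (∀ i, ‖φ' (lam i)‖ = ‖(p : C)‖⁻¹ ^ (w i * e)) →
      (∀ i, ‖φ' (mu i)‖ ≤ ‖(p : C)‖ * ‖φ' (lam i)‖) →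
      (∀ x ∈ im I (fun i => rA (lam i)) (fun i => rA (mu i)),
        ∀ (r : ℕ) (Z : SV (Γ : Set ℂ) n r), r + 2 ≤ n → x ∈ Z.locus →
          ∃ j l : Fin n, j ≠ l ∧ ∃ N : ℕ, 0 < N ∧ N ≤ G ∧ Isog N (x j) (x l)) ∧
      {x | x ∈ im I (fun i => rA (lam i)) (fun i => rA (mu i)) ∧
        ∃ (r : ℕ) (Z : SV (Γ : Set ℂ) n r), r + 2 ≤ n ∧ x ∈ Z.locus}.Finite ∧
      {x | x ∈ im I (fun i => rA (lam i)) (fun i => rA (mu i)) ∧
        ∃ (r : ℕ) (Z : SV (Γ : Set ℂ) n r), r + 2 ≤ n ∧ x ∈ Z.locus}.ncard ≤ G ∧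
      ∀ (r : ℕ) (Z : SV (Γ : Set ℂ) n r), r < n →
        ¬ im I (fun i => rA (lam i)) (fun i => rA (mu i)) ⊆ Z.locus := by
  classical
  haveI := hIp
  obtain ⟨𝔽, _, _, x, hx1, hx2⟩ := ff_of_prime I
  obtain ⟨𝒞, h𝒞⟩ := exists_GP x hx1 (fun i => by
      intro halg
      obtain ⟨r, hr, hr0⟩ := halg
      obtain ⟨c, hc⟩ := root_const (algebraMap QA 𝔽) hr hr0
      apply hconst i c
      rw [← hx2, map_sub, MvPolynomial.aeval_X, MvPolynomial.aeval_C, hc, sub_self])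
    (fun i j hij => by
      obtain ⟨a, b, g, h1, h2, h3, h4, h5⟩ := hgen i j hij
      refine ⟨a, b, mkG a b g, mkG_cor h1 h2 h3 h4, ?_⟩
      rw [← E2_mkG, ← hx2, aeval_E2, MvPolynomial.aeval_X, MvPolynomial.aeval_X] at h5
      exact h5)
  subst h𝒞
  obtain ⟨D₀, hD₀⟩ := glob_u 𝒞 hx2 W Γ hΓ
  refine ⟨D₀, ?_⟩
  intro p hpf hDp C _ _ _ _ _ hp0 hp1 f₀ hf₀
  obtain ⟨k, _, _, _, red, hker⟩ := exists_residue2 (C := C) (p := p) hp1
  obtain ⟨G₀, hG₀⟩ := hD₀ p hDp C hp0 hp1 k red hker f₀ hf₀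
  -- the bound for the degrees
  have hgen' : ∃ A : ℕ, 0 < A ∧ ∀ i j : Fin n, i ≠ j → ∃ (a b : ℕ) (g : ℕ → ℕ → QA),
      a ≤ A ∧ b ≤ A ∧ g a b ≠ 0 ∧ ∑ u ∈ Finset.range (a + 1), ∑ v ∈ Finset.range (b + 1),
        MvPolynomial.C (g u v) * MvPolynomial.X i ^ u * MvPolynomial.X j ^ v ∈ I := by
    have h1 : ∀ q : Fin n × Fin n, ∃ (a b : ℕ) (g : ℕ → ℕ → QA), q.1 ≠ q.2 → g a b ≠ 0 ∧
        ∑ u ∈ Finset.range (a + 1), ∑ v ∈ Finset.range (b + 1),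
        MvPolynomial.C (g u v) * MvPolynomial.X q.1 ^ u * MvPolynomial.X q.2 ^ v ∈ I := by
      intro q
      by_cases h : q.1 = q.2
      · exact ⟨0, 0, fun _ _ => 0, fun h' => absurd h h'⟩
      · obtain ⟨a, b, g, -, -, -, h4, h5⟩ := hgen q.1 q.2 h
        exact ⟨a, b, g, fun _ => ⟨h4, h5⟩⟩
    choose a b g h using h1
    refine ⟨1 + ∑ q : Fin n × Fin n, (a q + b q), by omega, fun i j hij => ?_⟩
    have h2 : a (i, j) + b (i, j) ≤ ∑ q : Fin n × Fin n, (a q + b q) :=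
      Finset.single_le_sum (f := fun q => a q + b q) (fun _ _ => Nat.zero_le _)
        (Finset.mem_univ (i, j))
    exact ⟨a (i, j), b (i, j), g (i, j), by omega, by omega, (h (i, j) hij).1, (h (i, j) hij).2⟩
  obtain ⟨A, hA, hgenA⟩ := hgen'
  set Q : Finset (Fin n × Fin n × ℕ) :=
    Finset.univ ×ˢ Finset.univ ×ˢ Finset.range (G₀ + 1) with hQ
  refine ⟨G₀ + ∑ q ∈ Q, n * A ^ n * dN q.2.2, ?_⟩
  intro φ' F lam mu e w he hw hF hlF hmF hlamn hmun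
  have hlam' : ∀ i, lam i ≠ 0 := by
    intro i h0
    have h1 := hlamn i
    rw [h0, map_zero, norm_zero] at h1
    exact (pow_pos (inv_pos.2 hp0) _).ne h1
  have hcov : ∀ y ∈ VC I, ∀ (r : ℕ) (Z : SV (Γ : Set ℂ) n r), r + 2 ≤ n →
      (fun i => rA (lam i) * y i + rA (mu i)) ∈ Z.locus →
      ∃ j l : Fin n, j ≠ l ∧ ∃ N : ℕ, 0 < N ∧ N ≤ G₀ ∧
        Isog N (rA (lam j) * y j + rA (mu j)) (rA (lam l) * y l + rA (mu l)) ∧
        MvPolynomial.eval₂ rA y (PsiMA (fun i => lam i) (fun i => mu i) j l N) = 0 := by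
    intro y hy r Z hr hZ
    obtain ⟨f, hf, hf'⟩ := exists_eqn 𝒞 hx2 hconst hΓ hlam' (mu := fun i => mu i) Z (by omega)
    obtain ⟨s, hsy, hsI⟩ := zeros_alg 𝒞 hx2 hf y hy (hf' y hZ)
    have hxs : ∀ i, rA (lam i * s i + mu i) =
        rA (lam i) * y i + rA (mu i) := by
      intro i
      rw [map_add, map_mul, ← hsy]
    obtain ⟨j, l, hjl, ⟨c, hcj, hcl⟩, N, hN0, hN, hΨ⟩ := hG₀ φ' lam mu w e F he hw
      hF hlF hmF hlamn hmun s hsI r Z.cls hr (by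
        intro i hi
        have h1 : rA (lam i * s i + mu i) = Z.const i := by
          rw [hxs]
          obtain ⟨z, hz⟩ := hZ
          exact (hz i).1 hi
        rw [h1]
        exact Z.int i) (by
        intro j l c _ hcj hcl
        obtain ⟨a', b', c', d', hdet, hrel⟩ := Z.rel_unif hcj hcl
        obtain ⟨w, w', hww, hw, hw'⟩ := hrel _ hZ
        exact ⟨w, w', a', b', c', d', hdet, hww, by rw [← hw]; exact hxs j,
          by rw [← hw']; exact hxs l⟩)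
    rw [hxs, hxs] at hΨ
    refine ⟨j, l, hjl, N, hN0, hN, ?_, ?_⟩
    · obtain ⟨a', b', c', d', hdet, hrel⟩ := Z.rel_unif hcj hcl
      obtain ⟨w, w', -, hw, -⟩ := hrel _ hZ
      have h1 : rA (lam j) * y j + rA (mu j) = jj w := hw
      rw [h1] at hΨ ⊢
      exact isog_of_psi hN0 hΨ
    · rw [PsiMA_eval₂]
      exact hΨ
  have hf : ∀ q : Fin n × Fin n × ℕ, ∃ f, f ∉ I ∧ Ideal.Quotient.mk I f ∈ BB I (dN q.2.2) ∧
      (q.1 ≠ q.2.1 → 0 < q.2.2 →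
      f = PsiMA (fun i => lam i) (fun i => mu i) q.1 q.2.1 q.2.2) := by
    rintro ⟨j, k, N⟩
    by_cases h : j ≠ k ∧ 0 < N
    · exact ⟨_, psi_notMem 𝒞 hx2 hlam' h.1 h.2, PsiMA_BB I _ _ j k N, fun _ _ => rfl⟩
    · refine ⟨1, fun h1 => hIp.ne_top ((Ideal.eq_top_iff_one I).2 h1), ?_,
        fun h1 h2 => absurd ⟨h1, h2⟩ h⟩
      refine BB_mono (Nat.zero_le _) (BB_mk fun i => ?_)
      rw [← MvPolynomial.C_1, MvPolynomial.degreeOf_C]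
  choose f hf0 hfB hf1 using hf
  set E : (Fin n → ℂ) → (Fin n → ℂ) := fun y i => rA (lam i) * y i + rA (mu i) with hE
  have hsub : {x | x ∈ im I (fun i => rA (lam i)) (fun i => rA (mu i)) ∧
        ∃ (r : ℕ) (Z : SV (Γ : Set ℂ) n r), r + 2 ≤ n ∧ x ∈ Z.locus} ⊆
      ⋃ q ∈ Q, E '' {y | y ∈ VC I ∧ MvPolynomial.eval₂ rA y (f q) = 0} := by
    rintro x ⟨⟨y, hy, hxy⟩, r, Z, hr, hZ⟩
    have hxE : E y = x := funext fun i => (hxy i).symm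
    rw [← hxE] at hZ
    obtain ⟨j, l, hjl, N, hN0, hN, -, hΨ⟩ := hcov y hy r Z hr hZ
    rw [Set.mem_iUnion₂]
    refine ⟨(j, l, N), ?_, y, ⟨hy, ?_⟩, hxE⟩
    · simp only [hQ, Finset.mem_product, Finset.mem_univ, Finset.mem_range, true_and]
      omega
    · rw [hf1 (j, l, N) hjl hN0]
      exact hΨ
  have hUfin : (⋃ q ∈ Q, E '' {y | y ∈ VC I ∧ MvPolynomial.eval₂ rA y (f q) = 0}).Finite :=
    Set.Finite.biUnion (Finset.finite_toSet _) fun q _ => (zeros_finite 𝒞 hx2 (hf0 q)).image _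
  refine ⟨?_, hUfin.subset hsub, ?_, ?_⟩
  · rintro x ⟨y, hy, hxy⟩ r Z hr hZ
    have hxE : E y = x := funext fun i => (hxy i).symm
    rw [← hxE] at hZ
    obtain ⟨j, l, hjl, N, hN0, hN, hiso, -⟩ := hcov y hy r Z hr hZ
    refine ⟨j, l, hjl, N, hN0, by omega, ?_⟩
    rw [← hxE]
    exact hiso
  · by_cases hn : n = 0
    · have hempty : {x | x ∈ im I (fun i => rA (lam i)) (fun i => rA (mu i)) ∧
        ∃ (r : ℕ) (Z : SV (Γ : Set ℂ) n r), r + 2 ≤ n ∧ x ∈ Z.locus} = ∅ := by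
        refine Set.eq_empty_iff_forall_notMem.2 ?_
        rintro x ⟨-, r, -, hr, -⟩
        omega
      rw [hempty, Set.ncard_empty]
      exact Nat.zero_le _
    · refine (Set.ncard_le_ncard hsub hUfin).trans ?_
      refine (Finset.set_ncard_biUnion_le Q _).trans ?_
      refine (Finset.sum_le_sum fun q _ => ?_).trans (Nat.le_add_left _ _)
      refine (Set.ncard_image_le (zeros_finite 𝒞 hx2 (hf0 q))).trans ?_
      exact zeros_card 𝒞 hx2 hIp (Nat.pos_of_ne_zero hn) hA hgenA (hf0 q) (hfB q)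
  · intro r Z hr hsub'
    obtain ⟨f, hf, hf'⟩ := exists_eqn 𝒞 hx2 hconst hΓ hlam' (mu := fun i => mu i) Z hr
    apply hf
    have h1 : f ∈ MvPolynomial.vanishingIdeal QA (MvPolynomial.zeroLocus ℂ I) := fun y hy =>
      hf' y (hsub' ⟨y, hy, fun _ => rfl⟩)
    rwa [MvPolynomial.IsPrime.vanishingIdeal_zeroLocus] at h1

end Pool.Agent.Y226.ZV
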